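import Pool.Agent.helper69.GR2B.Spec
import Pool.Agent.helper98.ILF.Lift

set_option autoImplicit false

open Complex Metric Set Filter Topology MeasureTheory
open MPS (om)
open PPS (pre TT fd)
open XPS (Df er dens tau)
open Pool.Agent.helper16.Multibrot

noncomputable section

namespace GR

theorem BOF (hBOK : BOK_stmt) : BOF_stmt := by
  intro F a r M N hr hN hF hFM hFa hlog
  have ha : a ∈ ball a r := mem_ball_self hr
  have hFa0 : F a ≠ 0 := (hFM a ha).1
  obtain ⟨h, hh, hha, hhe⟩ := Pool.Agent.helper98.ILF.exists_lift_exp hr hF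
    (fun y hy => (hFM y hy).1) (Complex.exp_log hFa0)
  have hr0 : (r : ℂ) ≠ 0 := by exact_mod_cast hr.ne'
  have hrn : ‖(r : ℂ)‖ = r := by rw [Complex.norm_real, Real.norm_eq_abs, abs_of_pos hr]
  have hnF : ∀ y ∈ ball a r, ‖F y‖ = Real.exp (h y).re := by
    intro y hy
    rw [← hhe y hy, Complex.norm_exp]
  have hmem : ∀ z : ℂ, ‖z‖ < 1 → a + r * z ∈ ball a r := by
    intro z hz
    rw [mem_ball_iff_norm, add_sub_cancel_left, norm_mul, hrn]
    calc r * ‖z‖ < r * 1 := by gcongr
      _ = r := mul_one r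
  set k : ℂ → ℂ := fun z => h (a + r * z) - h a with hk
  have hkd : DifferentiableOn ℂ k (ball 0 1) := by
    refine DifferentiableOn.sub_const ?_ _
    refine hh.comp (by fun_prop) ?_
    intro z hz
    exact hmem z (mem_ball_zero_iff.1 hz)
  have hk0 : k 0 = 0 := by
    show h (a + r * 0) - h a = 0
    rw [mul_zero, add_zero, sub_self]
  have hnk : ∀ z : ℂ, ‖z‖ < 1 → ‖F (a + r * z)‖ = Real.exp (k z).re * ‖F a‖ := by
    intro z hz
    rw [hnF _ (hmem z hz), hnF a ha, ← Real.exp_add]
    congr 1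
    show (h (a + r * z)).re = (h (a + r * z) - h a).re + (h a).re
    rw [Complex.sub_re]
    ring
  have hM : 1 / 2 ≤ M := hFa.trans (hFM a ha).2
  have hkre : ∀ z ∈ ball (0 : ℂ) 1, (k z).re ≤ 2 ^ N := by
    intro z hz
    rw [mem_ball_zero_iff] at hz
    refine le_trans ?_ hlog
    have h1 := hnk z hz
    have h2 := (hFM _ (hmem z hz)).2
    have h3 : Real.exp (k z).re * (1 / 2) ≤ M := by
      calc Real.exp (k z).re * (1 / 2) ≤ Real.exp (k z).re * ‖F a‖ := by gcongr
        _ = ‖F (a + r * z)‖ := h1.symm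
        _ ≤ M := h2
    rw [Real.le_log_iff_exp_le (by linarith)]
    linarith
  have hN1 : (1 : ℝ) ≤ (N : ℝ) := by exact_mod_cast hN
  have hN2 : (1 : ℝ) ≤ (N : ℝ) ^ 2 := one_le_pow₀ hN1
  by_cases hcase : ∃ z ∈ closedBall (0 : ℂ) (7 / 10), 6000000 * (N : ℝ) ^ 2 ≤ (k z).re
  · right
    obtain ⟨w, τ, hw1, hw2, hτ, hz⟩ := hBOK k N hN hkd hk0 hkre hcase
    have hsm : 1 / (819200 * (N : ℝ) ^ 2) ≤ 1 / 819200 := by
      apply one_div_le_one_div_of_le (by norm_num)
      linarith
    refine ⟨a + r * w, r * τ, ?_, ?_, ?_, ?_⟩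
    · rw [add_sub_cancel_left, norm_mul, hrn]
      calc 7 / 10 * r = r * (7 / 10) := by ring
        _ ≤ r * ‖w‖ := by gcongr
    · rw [add_sub_cancel_left, norm_mul, hrn]
      calc r * ‖w‖ ≤ r * (9 / 10) := by gcongr
        _ = 9 / 10 * r := by ring
    · rw [norm_mul, hrn]
      calc r * ‖τ‖ ≤ r * (1 / (819200 * (N : ℝ) ^ 2)) := by gcongr
        _ = r / (819200 * (N : ℝ) ^ 2) := by ring
    · intro z hzb
      set y : ℂ := (z - a) / r with hy
      have hzy : z = a + r * y := by
        rw [hy, mul_div_cancel₀ _ hr0]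
        ring
      have hyw : ‖y - w‖ < 1 / (819200 * (N : ℝ) ^ 2) := by
        rw [mem_ball_iff_norm] at hzb
        have e1 : z - (a + r * w) = r * (y - w) := by
          rw [hzy]
          ring
        rw [e1, norm_mul, hrn] at hzb
        have e2 : r / (819200 * (N : ℝ) ^ 2) = r * (1 / (819200 * (N : ℝ) ^ 2)) := by ring
        rw [e2] at hzb
        exact lt_of_mul_lt_mul_left hzb hr.le
      obtain ⟨h1, h2⟩ := hz y (mem_ball_iff_norm.2 hyw)
      have hy1 : ‖y‖ < 1 := by
        have : y = (y - w) + w := by ring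
        calc ‖y‖ = ‖(y - w) + w‖ := by rw [← this]
          _ ≤ ‖y - w‖ + ‖w‖ := norm_add_le _ _
          _ < 1 := by linarith
      have hy2 : ‖y + τ‖ < 1 := by
        have : y + τ = (y - w) + w + τ := by ring
        calc ‖y + τ‖ = ‖(y - w) + w + τ‖ := by rw [← this]
          _ ≤ ‖y - w‖ + ‖w‖ + ‖τ‖ := norm_add₃_le
          _ < 1 := by linarith
      have e3 : z + r * τ = a + r * (y + τ) := by
        rw [hzy]
        ring
      refine ⟨?_, ?_⟩
      · rw [hzy, hnk y hy1]
        have h3 : 1 ≤ Real.exp (k y).re := Real.one_le_exp h1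
        have h4 : 0 ≤ ‖F a‖ := norm_nonneg _
        nlinarith
      · have h5 : F (z + r * τ) / F z = Complex.exp (k (y + τ) - k y) := by
          rw [e3, ← hhe _ (hmem _ hy2)]
          nth_rewrite 1 [hzy]
          rw [← hhe _ (hmem _ hy1), ← Complex.exp_sub]
          congr 1
          show h (a + r * (y + τ)) - h (a + r * y) = (h (a + r * (y + τ)) - h a) - (h (a + r * y) - h a)
          ring
        rw [h5]
        exact h2
  · left
    push Not at hcase
    intro w hw
    set z : ℂ := (w - a) / r with hz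
    have hwz : w = a + r * z := by
      rw [hz, mul_div_cancel₀ _ hr0]
      ring
    have hz1 : ‖z‖ ≤ 7 / 10 := by
      rw [mem_closedBall_iff_norm] at hw
      rw [hz, norm_div, hrn, div_le_iff₀ hr]
      exact hw
    have h1 := (hcase z (mem_closedBall_zero_iff.2 hz1)).le
    rw [hwz, hnk z (by linarith)]
    gcongr

end GR
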